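import Mathlib

/-! A second moment for functions of the residues modulo primes. -/

set_option autoImplicit false

namespace Pool.Agent.Q205.SM

open Finset

/-- the number of elements of a residue class in an interval -/
theorem count_close (A : ℤ) (T N : ℕ) (hN : 0 < N) (v : ℤ) :
    |(((Ico A (A + T)).filter fun t => t ≡ v [ZMOD N]).card : ℝ) - (T : ℝ) / N| ≤ 1 := by
  have hNz : (0 : ℤ) < N := by exact_mod_cast hN
  have h := Int.Ico_filter_modEq_card A (A + T) hNz v
  have hNr : (0 : ℝ) < N := by exact_mod_cast hN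
  set x : ℚ := ((A : ℚ) - v) / N with hx
  have hNq : (0 : ℚ) < N := by exact_mod_cast hN
  have e1 : (((A + T : ℤ) : ℚ) - v) / ((N : ℤ) : ℚ) = x + T / N := by
    rw [hx]
    push_cast
    field_simp
    ring
  have e2 : ((A : ℚ) - v) / ((N : ℤ) : ℚ) = x := by
    rw [hx]
    push_cast
    rfl
  rw [e1, e2] at h
  have hT : (0 : ℚ) ≤ T / N := by positivity
  have hmono : ⌈x⌉ ≤ ⌈x + T / N⌉ := Int.ceil_le_ceil (by linarith)
  rw [max_eq_left (by linarith)] at h
  have h1 := Int.ceil_lt_add_one (x + T / N)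
  have h2 := Int.le_ceil (x + T / N)
  have h3 := Int.ceil_lt_add_one x
  have h4 := Int.le_ceil x
  have h5 : ((((Ico A (A + T)).filter fun t => t ≡ v [ZMOD N]).card : ℤ) : ℚ) =
      (⌈x + T / N⌉ : ℚ) - ⌈x⌉ := by
    rw [h]; push_cast; ring
  have h6 : |((((Ico A (A + T)).filter fun t => t ≡ v [ZMOD N]).card : ℤ) : ℚ) - (T : ℚ) / N| ≤ 1 := by
    rw [h5, abs_le]
    constructor <;> linarith
  have h7 : ((|((((Ico A (A + T)).filter fun t => t ≡ v [ZMOD N]).card : ℤ) : ℚ) - (T : ℚ) / N| : ℚ) : ℝ) ≤ 1 := by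
    exact_mod_cast h6
  push_cast at h7
  exact h7

theorem cross (p q : ℕ) (hp : 0 < p) (hq : 0 < q) (hpq : Nat.Coprime p q) (f g : ℤ → ℝ)
    (hf : ∀ t, f t = f (t % p)) (hg : ∀ t, g t = g (t % q))
    (hf0 : ∑ a ∈ range p, f a = 0) (hg0 : ∑ b ∈ range q, g b = 0)
    (hf1 : ∀ t, |f t| ≤ 1) (hg1 : ∀ t, |g t| ≤ 1) (A : ℤ) (T : ℕ) :
    |∑ t ∈ Ico A (A + T), f t * g t| ≤ p * q := by
  classical
  have hpz : (0 : ℤ) < p := by exact_mod_cast hp
  have hqz : (0 : ℤ) < q := by exact_mod_cast hq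
  let c : ℕ → ℕ → ℕ := fun a b =>
    ((Ico A (A + T)).filter fun t : ℤ => t % p = a ∧ t % q = b).card
  -- rewrite the sum by residues
  have h1 : ∑ t ∈ Ico A (A + T), f t * g t = ∑ a ∈ range p, ∑ b ∈ range q, f a * g b * c a b := by
    have h2 : ∀ t : ℤ, f t * g t = ∑ a ∈ range p, ∑ b ∈ range q,
        (if t % p = a ∧ t % q = b then f a * g b else 0) := by
      intro t
      have ha : (t % p).toNat ∈ range p := by
        rw [mem_range]
        have h3 := Int.emod_nonneg t hpz.ne'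
        have h4 := Int.emod_lt_of_pos t hpz
        omega
      have hb : (t % q).toNat ∈ range q := by
        rw [mem_range]
        have h3 := Int.emod_nonneg t hqz.ne'
        have h4 := Int.emod_lt_of_pos t hqz
        omega
      have ea : (((t % p).toNat : ℕ) : ℤ) = t % p := Int.toNat_of_nonneg (Int.emod_nonneg t hpz.ne')
      have eb : (((t % q).toNat : ℕ) : ℤ) = t % q := Int.toNat_of_nonneg (Int.emod_nonneg t hqz.ne')
      rw [sum_eq_single_of_mem _ ha, sum_eq_single_of_mem _ hb]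
      · rw [if_pos ⟨ea.symm, eb.symm⟩, ea, eb, ← hf, ← hg]
      · intro b _ hne
        rw [if_neg]
        rintro ⟨-, h⟩
        apply hne
        have : (b : ℤ) = ((t % q).toNat : ℤ) := by rw [eb, h]
        exact_mod_cast this
      · intro a _ hne
        apply sum_eq_zero
        intro b _
        rw [if_neg]
        rintro ⟨h, -⟩
        apply hne
        have : (a : ℤ) = ((t % p).toNat : ℤ) := by rw [ea, h]
        exact_mod_cast this
    simp only [h2]
    rw [sum_comm]
    apply sum_congr rfl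
    intro a _
    rw [sum_comm]
    apply sum_congr rfl
    intro b _
    rw [← sum_filter, sum_const, nsmul_eq_mul, mul_comm]
  have h2 : ∀ a ∈ range p, ∀ b ∈ range q, |(c a b : ℝ) - (T : ℝ) / ((p * q : ℕ) : ℝ)| ≤ 1 := by
    intro a ha b hb
    rw [mem_range] at ha hb
    obtain ⟨v, hv1, hv2⟩ := Nat.chineseRemainder hpq a b
    have e : c a b = ((Ico A (A + T)).filter fun t : ℤ => t ≡ (v : ℤ) [ZMOD ((p * q : ℕ) : ℤ)]).card := by
      change ((Ico A (A + T)).filter fun t : ℤ => t % p = a ∧ t % q = b).card = _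
      congr 1
      apply filter_congr
      intro t _
      have hv1' : (v : ℤ) ≡ a [ZMOD p] := (Int.natCast_modEq_iff).mpr hv1
      have hv2' : (v : ℤ) ≡ b [ZMOD q] := (Int.natCast_modEq_iff).mpr hv2
      have ha' : (a : ℤ) % p = a := Int.emod_eq_of_lt (by positivity) (by exact_mod_cast ha)
      have hb' : (b : ℤ) % q = b := Int.emod_eq_of_lt (by positivity) (by exact_mod_cast hb)
      have k1 : (t % p = a) ↔ t ≡ (v : ℤ) [ZMOD p] := by
        constructor
        · intro h
          have : t ≡ a [ZMOD p] := by rw [Int.ModEq, h, ha']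
          exact this.trans hv1'.symm
        · intro h
          have : t ≡ a [ZMOD p] := h.trans hv1'
          rw [Int.ModEq, ha'] at this
          exact this
      have k2 : (t % q = b) ↔ t ≡ (v : ℤ) [ZMOD q] := by
        constructor
        · intro h
          have : t ≡ b [ZMOD q] := by rw [Int.ModEq, h, hb']
          exact this.trans hv2'.symm
        · intro h
          have : t ≡ b [ZMOD q] := h.trans hv2'
          rw [Int.ModEq, hb'] at this
          exact this
      rw [k1, k2]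
      push_cast
      exact Int.modEq_and_modEq_iff_modEq_mul (by simpa using hpq)
    rw [e]
    exact count_close A T (p * q) (Nat.mul_pos hp hq) v
  have h3 : ∑ a ∈ range p, ∑ b ∈ range q, f a * g b * ((T : ℝ) / ((p * q : ℕ) : ℝ)) = 0 := by
    simp only [← sum_mul]
    rw [← sum_mul_sum, hf0, zero_mul, zero_mul]
  have h4 : ∑ t ∈ Ico A (A + T), f t * g t = ∑ a ∈ range p, ∑ b ∈ range q,
      f a * g b * ((c a b : ℝ) - (T : ℝ) / ((p * q : ℕ) : ℝ)) := by
    rw [h1, ← sub_zero (∑ a ∈ range p, ∑ b ∈ range q, f a * g b * (c a b : ℝ)), ← h3,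
      ← sum_sub_distrib]
    apply sum_congr rfl
    intro a _
    rw [← sum_sub_distrib]
    apply sum_congr rfl
    intro b _
    ring
  rw [h4]
  refine (abs_sum_le_sum_abs _ _).trans ?_
  have h5 : ∀ a ∈ range p, |∑ b ∈ range q, f a * g b * ((c a b : ℝ) - (T : ℝ) / ((p * q : ℕ) : ℝ))| ≤ q := by
    intro a ha
    refine (abs_sum_le_sum_abs _ _).trans ?_
    have h6 : ∀ b ∈ range q, |f a * g b * ((c a b : ℝ) - (T : ℝ) / ((p * q : ℕ) : ℝ))| ≤ 1 := by
      intro b hb
      rw [abs_mul, abs_mul]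
      have := mul_le_one₀ (hf1 a) (abs_nonneg _) (hg1 b)
      exact mul_le_one₀ this (abs_nonneg _) (h2 a ha b hb)
    refine (sum_le_sum h6).trans ?_
    rw [sum_const, card_range, nsmul_eq_mul, mul_one]
  refine (sum_le_sum h5).trans ?_
  rw [sum_const, card_range, nsmul_eq_mul]

/-- **the second moment** -/
theorem second (P : Finset ℕ) (x : ℕ) (hP : ∀ p ∈ P, p.Prime ∧ p ≤ x) (f : ℕ → ℤ → ℝ)
    (hf : ∀ p ∈ P, ∀ t, f p t = f p (t % p)) (hf0 : ∀ p ∈ P, ∑ a ∈ range p, f p a = 0)
    (hf1 : ∀ p ∈ P, ∀ t, |f p t| ≤ 1) (A : ℤ) (T : ℕ) :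
    ∑ t ∈ Ico A (A + T), (∑ p ∈ P, f p t) ^ 2 ≤ T * P.card + (x : ℝ) ^ 2 * (P.card : ℝ) ^ 2 := by
  classical
  have h1 : ∑ t ∈ Ico A (A + T), (∑ p ∈ P, f p t) ^ 2 =
      ∑ p ∈ P, ∑ q ∈ P, ∑ t ∈ Ico A (A + T), f p t * f q t := by
    simp only [sq, sum_mul_sum]
    rw [sum_comm]
    apply sum_congr rfl
    intro p _
    rw [sum_comm]
  rw [h1]
  have h2 : ∀ p ∈ P, ∀ q ∈ P, ∑ t ∈ Ico A (A + T), f p t * f q t ≤
      (if p = q then (T : ℝ) else 0) + (x : ℝ) ^ 2 := by
    intro p hp q hq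
    have hx : (0 : ℝ) ≤ (x : ℝ) ^ 2 := by positivity
    by_cases h : p = q
    · subst h
      rw [if_pos rfl]
      have h3 : ∀ t ∈ Ico A (A + T), f p t * f p t ≤ 1 := by
        intro t _
        have := abs_le.mp (hf1 p hp t)
        nlinarith
      have h4 := sum_le_sum h3
      rw [sum_const, Int.card_Ico, nsmul_eq_mul, mul_one] at h4
      have h5 : ((A + T - A).toNat : ℝ) = T := by
        have : (A + T - A).toNat = T := by omega
        rw [this]
      rw [h5] at h4
      linarith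
    · rw [if_neg h, zero_add]
      have hc : Nat.Coprime p q := (Nat.coprime_primes (hP p hp).1 (hP q hq).1).mpr h
      have h3 := cross p q (hP p hp).1.pos (hP q hq).1.pos hc (f p) (f q) (hf p hp) (hf q hq)
        (hf0 p hp) (hf0 q hq) (hf1 p hp) (hf1 q hq) A T
      refine (le_abs_self _).trans (h3.trans ?_)
      have h4 : (p : ℝ) ≤ x := by exact_mod_cast (hP p hp).2
      have h5 : (q : ℝ) ≤ x := by exact_mod_cast (hP q hq).2
      have h6 : (0 : ℝ) ≤ p := by positivity
      have h7 : (0 : ℝ) ≤ q := by positivity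
      nlinarith
  refine (sum_le_sum fun p hp => sum_le_sum fun q hq => h2 p hp q hq).trans ?_
  simp only [sum_add_distrib, sum_const, nsmul_eq_mul]
  have h3 : ∑ p ∈ P, ∑ q ∈ P, (if p = q then (T : ℝ) else 0) = T * P.card := by
    have : ∀ p ∈ P, ∑ q ∈ P, (if p = q then (T : ℝ) else 0) = T := by
      intro p hp
      rw [sum_ite_eq, if_pos hp]
    rw [sum_congr rfl this, sum_const, nsmul_eq_mul, mul_comm]
  rw [h3]
  nlinarith

open scoped Classical in
/-- **exceptional sets**: for sets `Z p` of residues with `#Z p ≤ δ p`, all but few `t` in an interval lie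
in `Z p` for at most `(δ + ε) #P` of the primes `p` in `P` -/
theorem exceptional (P : Finset ℕ) (x : ℕ) (hP : ∀ p ∈ P, p.Prime ∧ p ≤ x) (Z : ℕ → ℤ → Prop)
    (hZ : ∀ p ∈ P, ∀ t, Z p t ↔ Z p (t % p)) (δ : ℝ)
    (hδ : ∀ p ∈ P, (((range p).filter fun a : ℕ => Z p a).card : ℝ) ≤ δ * p) (ε : ℝ) (hε : 0 < ε)
    (A : ℤ) (T : ℕ) :
    (((Ico A (A + T)).filter fun t => (δ + ε) * P.card < ((P.filter fun p => Z p t).card : ℝ)).card : ℝ) *
      (ε ^ 2 * (P.card : ℝ) ^ 2) ≤ T * P.card + (x : ℝ) ^ 2 * (P.card : ℝ) ^ 2 := by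
  classical
  let d : ℕ → ℝ := fun p => (((range p).filter fun a : ℕ => Z p a).card : ℝ) / p
  let f : ℕ → ℤ → ℝ := fun p t => (if Z p t then 1 else 0) - d p
  have hd0 : ∀ p, 0 ≤ d p := fun p => by positivity
  have hd1 : ∀ p ∈ P, d p ≤ 1 := by
    intro p hp
    have hpos : (0 : ℝ) < p := by exact_mod_cast (hP p hp).1.pos
    change _ / _ ≤ _
    rw [div_le_one hpos]
    have := card_filter_le (range p) (fun a : ℕ => Z p a)
    rw [card_range] at this
    exact_mod_cast this
  have hdδ : ∀ p ∈ P, d p ≤ δ := by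
    intro p hp
    have hpos : (0 : ℝ) < p := by exact_mod_cast (hP p hp).1.pos
    change _ / _ ≤ _
    rw [div_le_iff₀ hpos]
    exact hδ p hp
  have hsec := second P x hP f ?_ ?_ ?_ A T
  · refine le_trans ?_ hsec
    rw [← nsmul_eq_mul, ← sum_const]
    refine le_trans ?_ (sum_le_sum_of_subset_of_nonneg (filter_subset (fun t =>
      (δ + ε) * P.card < ((P.filter fun p => Z p t).card : ℝ)) _) fun _ _ _ => sq_nonneg _)
    apply sum_le_sum
    intro t ht
    rw [mem_filter] at ht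
    have h1 : ∑ p ∈ P, f p t = ((P.filter fun p => Z p t).card : ℝ) - ∑ p ∈ P, d p := by
      change ∑ p ∈ P, ((if Z p t then (1 : ℝ) else 0) - d p) = _
      rw [sum_sub_distrib, sum_boole]
    have h2 : ∑ p ∈ P, d p ≤ δ * P.card := by
      refine (sum_le_sum hdδ).trans ?_
      rw [sum_const, nsmul_eq_mul, mul_comm]
    have h3 : ε * P.card ≤ ∑ p ∈ P, f p t := by
      rw [h1]
      have := ht.2
      nlinarith
    have h4 : 0 ≤ ε * (P.card : ℝ) := by positivity
    calc ε ^ 2 * (P.card : ℝ) ^ 2 = (ε * P.card) ^ 2 := by ring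
      _ ≤ (∑ p ∈ P, f p t) ^ 2 := by gcongr
  · intro p hp t
    change (if Z p t then (1 : ℝ) else 0) - d p = (if Z p (t % p) then (1 : ℝ) else 0) - d p
    rw [if_congr (hZ p hp t) rfl rfl]
  · intro p hp
    have hpos : (0 : ℝ) < p := by exact_mod_cast (hP p hp).1.pos
    change ∑ a ∈ range p, ((if Z p (a : ℤ) then (1 : ℝ) else 0) - d p) = 0
    rw [sum_sub_distrib, sum_boole, sum_const, card_range, nsmul_eq_mul]
    change _ - (p : ℝ) * (_ / _) = 0
    field_simp
    simp
  · intro p hp t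
    change |(if Z p t then (1 : ℝ) else 0) - d p| ≤ 1
    have h1 := hd0 p
    have h2 := hd1 p hp
    rw [abs_le]
    split_ifs <;> constructor <;> linarith

end Pool.Agent.Q205.SM
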